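import Pool.Agent.OF54.Defs

/-!
# Optical fibers with cylindrical walls

Let the walls be a piece of the cylinder over the boundary of a plane figure `D`, between two
arbitrary plane ends. If the body is an optical fiber, both ends are orthogonal to the axis, and
the planes orthogonal to the axis slice it orthogonally.
-/

open MeasureTheory Set
open scoped RealInnerProductSpace
open Pool.Agent.OF54

namespace Pool.Agent.OF54.Cylinder

/-- Projection along the axis. -/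
def pr (p : E3) : E2 := !₂[p 0, p 1]

/-- The height of the plane `z = k + ⟪e, u⟫` over `u`. -/
noncomputable def ht (k : ℝ) (e u : E2) : ℝ := k + ⟪e, u⟫

/-- The body over the plane figure `D` between the planes `z = k₁ + ⟪e₁, u⟫` and
`z = k₂ + ⟪e₂, u⟫`; `N` is the field of unit normals of the boundary curve of `D`. -/
noncomputable def cylinder (D : Set E2) (N : E2 → E2) (k₁ k₂ : ℝ) (e₁ e₂ : E2) : Body where
  V := {p | pr p ∈ D ∧ ht k₁ e₁ (pr p) < p 2 ∧ p 2 < ht k₂ e₂ (pr p)}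
  walls := {p | pr p ∈ frontier D ∧ ht k₁ e₁ (pr p) < p 2 ∧ p 2 < ht k₂ e₂ (pr p)}
  n := fun p => !₂[N (pr p) 0, N (pr p) 1, 0]
  φ₁ := fun u => !₂[u 0, u 1, ht k₁ e₁ u]
  φ₂ := fun u => !₂[u 0, u 1, ht k₂ e₂ u]
  G₁ := D
  G₂ := D
  ν₁ := !₂[-e₁ 0, -e₁ 1, 1]
  ν₂ := !₂[e₂ 0, e₂ 1, -1]

variable {D : Set E2} {N : E2 → E2} {k₁ k₂ : ℝ} {e₁ e₂ : E2}

theorem pr_mk (x y z : ℝ) : pr !₂[x, y, z] = !₂[x, y] := by
  simp [pr]

theorem eta (u : E2) : (!₂[u 0, u 1] : E2) = u := by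
  ext i; fin_cases i <;> rfl

/-- A ray that goes down ends below its starting height. -/
theorem down {F : Set E3} {p v : E3} (h : Leaves (cylinder D N k₁ k₂ e₁ e₂) F p v)
    (hv : v 2 ≤ 0) : ∃ q ∈ F, q 2 ≤ p 2 := by
  induction h with
  | @exit p v t ht hV hq =>
    refine ⟨_, hq, ?_⟩
    simp only [PiLp.add_apply, PiLp.smul_apply, smul_eq_mul]
    nlinarith
  | @bounce p v t ht hV hW h ih =>
    obtain ⟨q, hq, hq'⟩ := ih (by simpa [cylinder] using hv)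
    refine ⟨q, hq, hq'.trans ?_⟩
    simp only [PiLp.add_apply, PiLp.smul_apply, smul_eq_mul]
    nlinarith

/-- A ray that goes up ends above its starting height. -/
theorem up {F : Set E3} {p v : E3} (h : Leaves (cylinder D N k₁ k₂ e₁ e₂) F p v)
    (hv : 0 ≤ v 2) : ∃ q ∈ F, p 2 ≤ q 2 := by
  induction h with
  | @exit p v t ht hV hq =>
    refine ⟨_, hq, ?_⟩
    simp only [PiLp.add_apply, PiLp.smul_apply, smul_eq_mul]
    nlinarith
  | @bounce p v t ht hV hW h ih =>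
    obtain ⟨q, hq, hq'⟩ := ih (by simpa [cylinder] using hv)
    refine ⟨q, hq, le_trans ?_ hq'⟩
    simp only [PiLp.add_apply, PiLp.smul_apply, smul_eq_mul]
    nlinarith

theorem continuous_ht (k : ℝ) (e : E2) : Continuous (ht k e) := by
  unfold ht
  fun_prop

theorem F₁_height {q : E3} (hq : q ∈ (cylinder D N k₁ k₂ e₁ e₂).F₁) :
    pr q ∈ D ∧ q 2 = ht k₁ e₁ (pr q) := by
  obtain ⟨u, hu, rfl⟩ := hq
  change pr !₂[u 0, u 1, ht k₁ e₁ u] ∈ D ∧ _
  rw [show pr ((cylinder D N k₁ k₂ e₁ e₂).φ₁ u) = u by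
    change pr !₂[u 0, u 1, ht k₁ e₁ u] = u
    rw [pr_mk, eta], pr_mk, eta]
  exact ⟨hu, by simp [cylinder]⟩

theorem F₂_height {q : E3} (hq : q ∈ (cylinder D N k₁ k₂ e₁ e₂).F₂) :
    pr q ∈ D ∧ q 2 = ht k₂ e₂ (pr q) := by
  obtain ⟨u, hu, rfl⟩ := hq
  change pr !₂[u 0, u 1, ht k₂ e₂ u] ∈ D ∧ _
  rw [show pr ((cylinder D N k₁ k₂ e₁ e₂).φ₂ u) = u by
    change pr !₂[u 0, u 1, ht k₂ e₂ u] = u
    rw [pr_mk, eta], pr_mk, eta]
  exact ⟨hu, by simp [cylinder]⟩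

theorem e₁_eq_zero (hD : IsOpen D) (hb : Bornology.IsBounded D) (hne : D.Nonempty)
    (hlt : ∀ u ∈ closure D, ht k₁ e₁ u < ht k₂ e₂ u)
    (h : IsOpticalFiber (cylinder D N k₁ k₂ e₁ e₂)) : e₁ = 0 := by
  by_contra he
  obtain ⟨w, hw, hmin⟩ := hb.isCompact_closure.exists_isMinOn hne.closure
    (continuous_ht k₂ e₂).continuousOn
  have hopen : IsOpen {u : E2 | ht k₁ e₁ u < ht k₂ e₂ w} :=
    isOpen_lt (continuous_ht k₁ e₁) continuous_const
  obtain ⟨u0, hu0, hu0'⟩ := mem_closure_iff.1 hw _ hopen (hlt w hw)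
  obtain ⟨u, hu, hu'⟩ := exists_of_ae_restrict h.forth (hD.inter hopen)
    (fun u hu => hu.1) ⟨u0, hu0', hu0⟩
  have ho1 : IsOpen {v : E3 | (0 : ℝ) < ⟪v, (!₂[-e₁ 0, -e₁ 1, 1] : E3)⟫} :=
    isOpen_lt continuous_const (by fun_prop)
  have ho2 : IsOpen {v : E3 | v 2 < 0} := isOpen_lt (by fun_prop) continuous_const
  have hpos : 0 < e₁ 0 ^ 2 + e₁ 1 ^ 2 := by
    have h1 : 0 < ‖e₁‖ ^ 2 := by have := norm_pos_iff.2 he; positivity
    rwa [EuclideanSpace.norm_sq_eq, Fin.sum_univ_two, Real.norm_eq_abs, Real.norm_eq_abs,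
      sq_abs, sq_abs] at h1
  obtain ⟨v, hv, hv'⟩ := exists_of_ae hu' (ho1.inter ho2)
    ⟨!₂[-e₁ 0, -e₁ 1, -((e₁ 0 ^ 2 + e₁ 1 ^ 2) / 2)], by
      simp only [mem_ofPred_eq, inner_eq, Fin.isValue, Matrix.cons_val_zero,
        Matrix.cons_val_one, Matrix.cons_val]
      nlinarith, by
      simp only [mem_ofPred_eq, Fin.isValue, Matrix.cons_val]
      linarith⟩
  obtain ⟨q, hq, hq'⟩ := down (hv' hv.1) (le_of_lt hv.2)
  have h3 := F₂_height hq
  have h4 : ht k₂ e₂ w ≤ ht k₂ e₂ (pr q) := hmin (subset_closure h3.1)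
  have h5 : ((cylinder D N k₁ k₂ e₁ e₂).φ₁ u) 2 = ht k₁ e₁ u := by simp [cylinder]
  rw [h5] at hq'
  have h6 : ht k₁ e₁ u < ht k₂ e₂ w := hu.2
  linarith

theorem e₂_eq_zero (hD : IsOpen D) (hb : Bornology.IsBounded D) (hne : D.Nonempty)
    (hlt : ∀ u ∈ closure D, ht k₁ e₁ u < ht k₂ e₂ u)
    (h : IsOpticalFiber (cylinder D N k₁ k₂ e₁ e₂)) : e₂ = 0 := by
  by_contra he
  obtain ⟨w, hw, hmax⟩ := hb.isCompact_closure.exists_isMaxOn hne.closure
    (continuous_ht k₁ e₁).continuousOn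
  have hopen : IsOpen {u : E2 | ht k₁ e₁ w < ht k₂ e₂ u} :=
    isOpen_lt continuous_const (continuous_ht k₂ e₂)
  obtain ⟨u0, hu0, hu0'⟩ := mem_closure_iff.1 hw _ hopen (hlt w hw)
  obtain ⟨u, hu, hu'⟩ := exists_of_ae_restrict h.back (hD.inter hopen)
    (fun u hu => hu.1) ⟨u0, hu0', hu0⟩
  have ho1 : IsOpen {v : E3 | (0 : ℝ) < ⟪v, (!₂[e₂ 0, e₂ 1, -1] : E3)⟫} :=
    isOpen_lt continuous_const (by fun_prop)
  have ho2 : IsOpen {v : E3 | 0 < v 2} := isOpen_lt continuous_const (by fun_prop)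
  have hpos : 0 < e₂ 0 ^ 2 + e₂ 1 ^ 2 := by
    have h1 : 0 < ‖e₂‖ ^ 2 := by have := norm_pos_iff.2 he; positivity
    rwa [EuclideanSpace.norm_sq_eq, Fin.sum_univ_two, Real.norm_eq_abs, Real.norm_eq_abs,
      sq_abs, sq_abs] at h1
  obtain ⟨v, hv, hv'⟩ := exists_of_ae hu' (ho1.inter ho2)
    ⟨!₂[e₂ 0, e₂ 1, (e₂ 0 ^ 2 + e₂ 1 ^ 2) / 2], by
      simp only [mem_ofPred_eq, inner_eq, Fin.isValue, Matrix.cons_val_zero,
        Matrix.cons_val_one, Matrix.cons_val]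
      nlinarith, by
      simp only [mem_ofPred_eq, Fin.isValue, Matrix.cons_val]
      linarith⟩
  obtain ⟨q, hq, hq'⟩ := up (hv' hv.1) (le_of_lt hv.2)
  have h3 := F₁_height hq
  have h4 : ht k₁ e₁ (pr q) ≤ ht k₁ e₁ w := hmax (subset_closure h3.1)
  have h5 : ((cylinder D N k₁ k₂ e₁ e₂).φ₂ u) 2 = ht k₂ e₂ u := by simp [cylinder]
  rw [h5] at hq'
  have h6 : ht k₁ e₁ w < ht k₂ e₂ u := hu.2
  linarith

/-- **Theorem.** An optical fiber with cylindrical walls has both ends orthogonal to the axis and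
is sliced orthogonally. -/
theorem result (D : Set E2) (hD : IsOpen D) (hb : Bornology.IsBounded D) (hne : D.Nonempty)
    (N : E2 → E2) (k₁ k₂ : ℝ) (e₁ e₂ : E2)
    (hlt : ∀ u ∈ closure D, ht k₁ e₁ u < ht k₂ e₂ u)
    (h : IsOpticalFiber (cylinder D N k₁ k₂ e₁ e₂)) :
    e₁ = 0 ∧ e₂ = 0 ∧ SlicedOrthogonally (cylinder D N k₁ k₂ e₁ e₂) := by
  have h1 := e₁_eq_zero hD hb hne hlt h
  have h2 := e₂_eq_zero hD hb hne hlt h
  refine ⟨h1, h2, ?_⟩
  subst h1 h2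
  have h0 : ∀ (k : ℝ) (u : E2), ht k 0 u = k := fun k u => by simp [ht]
  have hk : k₁ < k₂ := by
    obtain ⟨u, hu⟩ := hne
    simpa [h0] using hlt u (subset_closure hu)
  refine ⟨k₁, k₂, fun _ => !₂[0, 0, 1], fun t => t, hk, continuousOn_const,
    continuousOn_id, ?_, ?_, ?_, ?_, ?_⟩
  · intro t _
    rw [← sq_eq_sq₀ (norm_nonneg _) zero_le_one, norm_sq_eq]
    simp
  · intro p hp
    have hp2 : p 2 ∈ Icc k₁ k₂ := by
      rcases hp with ((hp | hp) | hp) | hp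
      · have := hp.2; simp only [h0] at this; exact ⟨this.1.le, this.2.le⟩
      · have := hp.2; simp only [h0] at this; exact ⟨this.1.le, this.2.le⟩
      · rw [(F₁_height hp).2, h0]; exact ⟨le_rfl, hk.le⟩
      · rw [(F₂_height hp).2, h0]; exact ⟨hk.le, le_rfl⟩
    refine ⟨p 2, ⟨hp2, by simp [inner_eq]⟩, ?_⟩
    rintro t ⟨_, ht⟩
    simpa [inner_eq] using ht.symm
  · intro p hp
    have := (F₁_height hp).2
    rw [h0] at this
    simpa [inner_eq] using this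
  · intro p hp
    have := (F₂_height hp).2
    rw [h0] at this
    simpa [inner_eq] using this
  · intro t _ p hp _
    rw [inner_eq]
    simp [cylinder]

end Pool.Agent.OF54.Cylinder
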