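import Mathlib

/-!
# Optical fibers: bodies with two plane ends and mirror walls

Definitions for the problem MP_4387b1_gt.
-/

open MeasureTheory Set
open scoped RealInnerProductSpace

namespace Pool.Agent.OF54

/-- The Euclidean plane. -/
abbrev E2 := EuclideanSpace ℝ (Fin 2)

/-- Euclidean space. -/
abbrev E3 := EuclideanSpace ℝ (Fin 3)

/-- The data of a body: the open body `V`, its walls (mirrors) with a unit normal field `n`,
and two plane ends, given as the images of plane figures `G₁`, `G₂` under affine parametrizations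
`φ₁`, `φ₂` of the end planes, with normals `ν₁`, `ν₂` pointing into the body. -/
structure Body where
  /-- the open body -/
  V : Set E3
  /-- the walls -/
  walls : Set E3
  /-- unit normals of the walls -/
  n : E3 → E3
  /-- parametrization of the first end plane -/
  φ₁ : E2 → E3
  /-- parametrization of the second end plane -/
  φ₂ : E2 → E3
  /-- figure of the first end -/
  G₁ : Set E2
  /-- figure of the second end -/
  G₂ : Set E2
  /-- inner normal of the first end -/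
  ν₁ : E3
  /-- inner normal of the second end -/
  ν₂ : E3

/-- The first end. -/
def Body.F₁ (B : Body) : Set E3 := B.φ₁ '' B.G₁

/-- The second end. -/
def Body.F₂ (B : Body) : Set E3 := B.φ₂ '' B.G₂

/-- `Leaves B F p v`: the light ray that starts at `p` with velocity `v` runs along straight
segments inside `V`, is reflected by the walls finitely often (`v` becomes
`v - 2⟪v, n⟫ n`), and then reaches a point of `F`. -/
inductive Leaves (B : Body) (F : Set E3) : E3 → E3 → Prop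
  | exit {p v : E3} {t : ℝ} (ht : 0 < t) (hV : ∀ s ∈ Ioo 0 t, p + s • v ∈ B.V)
      (hF : p + t • v ∈ F) : Leaves B F p v
  | bounce {p v : E3} {t : ℝ} (ht : 0 < t) (hV : ∀ s ∈ Ioo 0 t, p + s • v ∈ B.V)
      (hW : p + t • v ∈ B.walls)
      (h : Leaves B F (p + t • v)
        (v - (2 * ⟪v, B.n (p + t • v)⟫) • B.n (p + t • v))) : Leaves B F p v

/-- Optical fiber: almost every ray that enters through one end leaves through the other one, and
almost every ray from an inner point leaves through one of the ends. -/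
structure IsOpticalFiber (B : Body) : Prop where
  forth : ∀ᵐ u ∂(volume.restrict B.G₁), ∀ᵐ v : E3, 0 < ⟪v, B.ν₁⟫ → Leaves B B.F₂ (B.φ₁ u) v
  back : ∀ᵐ u ∂(volume.restrict B.G₂), ∀ᵐ v : E3, 0 < ⟪v, B.ν₂⟫ → Leaves B B.F₁ (B.φ₂ u) v
  inside : ∀ᵐ p ∂(volume.restrict B.V), ∀ᵐ v : E3, Leaves B (B.F₁ ∪ B.F₂) p v

/-- The body is sliced orthogonally by the planes `⟪x, m t⟫ = c t`, `a ≤ t ≤ b`: every point of
the body, of its walls and of its ends lies in exactly one of them, the first plane holds the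
first end and the last one the second end, and every plane meets the walls at a right angle. -/
def SlicedOrthogonally (B : Body) : Prop :=
  ∃ (a b : ℝ) (m : ℝ → E3) (c : ℝ → ℝ), a < b ∧ ContinuousOn m (Icc a b) ∧
    ContinuousOn c (Icc a b) ∧ (∀ t ∈ Icc a b, ‖m t‖ = 1) ∧
    (∀ p ∈ B.V ∪ B.walls ∪ B.F₁ ∪ B.F₂, ∃! t, t ∈ Icc a b ∧ ⟪p, m t⟫ = c t) ∧
    (∀ p ∈ B.F₁, ⟪p, m a⟫ = c a) ∧ (∀ p ∈ B.F₂, ⟪p, m b⟫ = c b) ∧
    ∀ t ∈ Icc a b, ∀ p ∈ B.walls, ⟪p, m t⟫ = c t → ⟪B.n p, m t⟫ = 0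

theorem exists_of_ae_restrict {n : ℕ} {P : EuclideanSpace ℝ (Fin n) → Prop}
    {G U : Set (EuclideanSpace ℝ (Fin n))} (h : ∀ᵐ x ∂(volume.restrict G), P x)
    (hU : IsOpen U) (hUG : U ⊆ G) (hne : U.Nonempty) : ∃ x ∈ U, P x := by
  have h1 : ∀ᵐ x ∂(volume.restrict U), P x := ae_restrict_of_ae_restrict_of_subset hUG h
  have h2 : ∀ᵐ x ∂(volume : Measure (EuclideanSpace ℝ (Fin n))), x ∈ U → P x :=
    (ae_restrict_iff' hU.measurableSet).1 h1
  have h3 := Measure.dense_of_ae h2
  obtain ⟨x, hx, hx'⟩ := h3.inter_open_nonempty U hU hne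
  exact ⟨x, hx, hx' hx⟩

theorem exists_of_ae {n : ℕ} {P : EuclideanSpace ℝ (Fin n) → Prop}
    {U : Set (EuclideanSpace ℝ (Fin n))}
    (h : ∀ᵐ x ∂(volume : Measure (EuclideanSpace ℝ (Fin n))), P x)
    (hU : IsOpen U) (hne : U.Nonempty) : ∃ x ∈ U, P x := by
  obtain ⟨x, hx, hx'⟩ := (Measure.dense_of_ae h).inter_open_nonempty U hU hne
  exact ⟨x, hx, hx'⟩

/-- Inner product in coordinates. -/
theorem inner_eq (x y : E3) : ⟪x, y⟫ = x 0 * y 0 + x 1 * y 1 + x 2 * y 2 := by
  rw [PiLp.inner_apply, Fin.sum_univ_three]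
  simp [mul_comm]

theorem norm_sq_eq (x : E3) : ‖x‖ ^ 2 = x 0 ^ 2 + x 1 ^ 2 + x 2 ^ 2 := by
  rw [← real_inner_self_eq_norm_sq, inner_eq]; ring

/-- A reflection keeps the norm. -/
theorem norm_reflect {v n : E3} (hn : ‖n‖ = 1) : ‖v - (2 * ⟪v, n⟫) • n‖ ^ 2 = ‖v‖ ^ 2 := by
  rw [norm_sub_sq_real, norm_smul, real_inner_smul_right, hn, Real.norm_eq_abs, mul_pow, sq_abs]
  ring

end Pool.Agent.OF54
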